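import Mathlib

/-!
# Board b5: the zero after a load of type B, common estimates
-/

namespace Pool.Agent.B5.H02

theorem rb_core {T T' c v h : ℂ} {D : ℝ} (hv : ‖v‖ = 1) (hh : ‖h‖ ≤ 3) (hD0 : 0 < D)
    (hD : D ≤ ‖T'‖ - 3) (heq : (T - T') * (T' + v * h) = v * c * T') :
    ‖T'‖ ≤ ‖T - v * c‖ + 3 * ‖c‖ / D := by
  have hvh : ‖v * h‖ ≤ 3 := by rw [norm_mul, hv, one_mul]; exact hh
  have hw : D ≤ ‖T' + v * h‖ := by
    have h1 : ‖T'‖ ≤ ‖T' + v * h‖ + ‖v * h‖ := by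
      calc ‖T'‖ = ‖(T' + v * h) - v * h‖ := by rw [add_sub_cancel_right]
        _ ≤ _ := norm_sub_le _ _
    linarith
  have hw0 : T' + v * h ≠ 0 := by
    intro h0
    rw [h0, norm_zero] at hw
    linarith
  have hT : T' = (T - v * c) + v * c * (v * h) / (T' + v * h) := by
    field_simp
    linear_combination -heq
  have hlast : ‖v * c * (v * h) / (T' + v * h)‖ ≤ 3 * ‖c‖ / D := by
    rw [norm_div, norm_mul, norm_mul, hv, one_mul]
    have h1 : ‖c‖ * ‖v * h‖ ≤ 3 * ‖c‖ := by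
      nlinarith [norm_nonneg c, norm_nonneg (v * h)]
    calc ‖c‖ * ‖v * h‖ / ‖T' + v * h‖ ≤ ‖c‖ * ‖v * h‖ / D := by
          apply div_le_div_of_nonneg_left _ hD0 hw
          positivity
      _ ≤ _ := by
          apply div_le_div_of_nonneg_right h1 hD0.le
  calc ‖T'‖ = ‖(T - v * c) + v * c * (v * h) / (T' + v * h)‖ := by rw [← hT]
    _ ≤ _ := norm_add_le _ _
    _ ≤ _ := by linarith

theorem rb_sq {T c v : ℂ} (hv : ‖v‖ = 1) :
    ‖T - v * c‖ ^ 2 = ‖T‖ ^ 2 + ‖c‖ ^ 2 - 2 * (v * (c * (starRingEnd ℂ) T)).re := by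
  rw [Complex.sq_norm, Complex.normSq_sub, ← Complex.sq_norm, ← Complex.sq_norm, norm_mul, hv,
    one_mul]
  congr 2
  have : T * (starRingEnd ℂ) (v * c) = (starRingEnd ℂ) (v * (c * (starRingEnd ℂ) T)) := by
    simp only [map_mul, Complex.conj_conj]
    ring
  rw [this, Complex.conj_re]

end Pool.Agent.B5.H02
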