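import Pool.Agent.Lib.MP_b5021c_nt.IfaceS4a
import Pool.Agent.Lib.MP_b5021c_nt.B.H02.RbCore

/-!
# Board b5, row RB2: the zero after a load of type B (light closing, window, heavy closing)
-/

namespace Pool.Agent.B5.H02

theorem le_of_sq' {a b : ℝ} (hb : 0 ≤ b) (h : a ^ 2 ≤ b ^ 2) : a ≤ b :=
  le_trans (le_abs_self a) (by
    have := sq_le_sq.mp h
    rwa [abs_of_nonneg hb] at this)

/-- (RB2) the zero after a load of type B: light closing, window, heavy closing. -/
theorem rb2 : Rb2S := by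
  intro T T' c v h hT _ hv hh hc2 heq
  have hsq := rb_sq (T := T) (c := c) hv
  have hθ0 : (0 : ℝ) < ‖T‖ := by linarith
  by_cases hcase : ‖T'‖ ≤ ‖T‖ / 2
  · refine ⟨fun _ _ _ => by linarith, fun _ _ _ => by linarith, fun _ _ => by linarith⟩
  · push Not at hcase
    have hcore : ‖T'‖ ≤ ‖T - v * c‖ + 3 * ‖c‖ / (485 / 1000 * ‖T‖) :=
      rb_core hv hh (by positivity) (by linarith) heq
    have hfr : 3 * ‖c‖ / (485 / 1000 * ‖T‖) ≤ 6.19 * ‖c‖ / ‖T‖ := by
      rw [div_le_div_iff₀ (by positivity) hθ0]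
      nlinarith [mul_nonneg (norm_nonneg c) hθ0.le]
    have hs0 : 0 ≤ ‖c‖ := norm_nonneg c
    generalize ‖T‖ = θ at *
    generalize ‖c‖ = s at *
    generalize ‖T - v * c‖ = A at *
    generalize (v * (c * (starRingEnd ℂ) T)).re = R at *
    generalize ‖T'‖ = N at *
    have hNθ : N * θ ≤ A * θ + 6.19 * s := by
      have h1 : N ≤ A + 6.19 * s / θ := hcore.trans (by linarith)
      calc N * θ ≤ (A + 6.19 * s / θ) * θ := mul_le_mul_of_nonneg_right h1 hθ0.le
        _ = _ := by field_simp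
    have h3 : (1.732 : ℝ) ≤ Real.sqrt 3 := by
      apply Real.le_sqrt_of_sq_le
      norm_num
    have hsθ : 0 ≤ s * θ := by positivity
    have h20 : 20 / θ ≤ 1 / 10 := by
      rw [div_le_iff₀ hθ0]
      linarith
    refine ⟨?_, ?_, ?_⟩
    · intro hs1 hs hR
      have hA2 : A ^ 2 ≤ θ ^ 2 + s ^ 2 - s * θ := by linarith
      have hA : A * θ ≤ θ ^ 2 - s * θ / 2 + 0.3948 * s ^ 2 := by
        apply le_of_sq'
        · nlinarith
        · have h1 : (A * θ) ^ 2 ≤ (θ ^ 2 + s ^ 2 - s * θ) * θ ^ 2 := by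
            rw [mul_pow]
            exact mul_le_mul_of_nonneg_right hA2 (sq_nonneg θ)
          have h2 : 0 ≤ 0.3948 * (s ^ 2 * θ * (θ / 10 - s)) := by
            have : 0 ≤ θ / 10 - s := by linarith
            positivity
          nlinarith [sq_nonneg (s ^ 2), sq_nonneg (s * θ)]
      have hs1' : θ + 20 ≤ s * θ := by
        have := mul_le_mul_of_nonneg_right hs1 hθ0.le
        have h4 : (1 + 20 / θ) * θ = θ + 20 := by field_simp
        linarith
      have hfin : N * θ ≤ (θ - 1 / 2) * θ := by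
        have h4 : 0 ≤ (s - (1 + 20 / θ)) * (θ / 10 - s) := mul_nonneg (by linarith) (by linarith)
        have hs11 : 0 ≤ (s - (1 + 20 / θ)) := by linarith
        have hu : 0 ≤ 20 / θ := by positivity
        have huθ : 20 / θ * θ = 20 := by field_simp
        generalize 20 / θ = u at *
        -- N θ ≤ θ² - sθ/2 + .3948 s² + 6.19 s
        have h5 : s ^ 2 ≤ (1 + u + θ / 10) * s - (1 + u) * θ / 10 := by nlinarith
        have h6 : 0 ≤ (s - (1 + u)) * (θ - 200) := mul_nonneg hs11 (by linarith)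
        have h7 : s * u ≤ s / 10 := by nlinarith
        nlinarith
      exact le_of_mul_le_mul_right hfin hθ0
    · intro hs1 hs hR
      have hs' : s ≤ 1.1 := by linarith
      have hA2 : A ^ 2 ≤ θ ^ 2 + s ^ 2 - 1.732 * (s * θ) := by
        nlinarith [mul_le_mul_of_nonneg_right h3 hsθ]
      have hA : A * θ ≤ θ ^ 2 - θ / 2 - 6.19 * s := by
        apply le_of_sq'
        · nlinarith
        · have h1 : (A * θ) ^ 2 ≤ (θ ^ 2 + s ^ 2 - 1.732 * (s * θ)) * θ ^ 2 := by
            rw [mul_pow]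
            exact mul_le_mul_of_nonneg_right hA2 (sq_nonneg θ)
          have h2 : θ ^ 2 * (θ ^ 2 + s ^ 2 - 1.732 * (s * θ)) ≤
              θ ^ 2 * (θ ^ 2 - θ - 12.38 * s) := by
            apply mul_le_mul_of_nonneg_left _ (sq_nonneg θ)
            nlinarith
          nlinarith [sq_nonneg (θ / 2 + 6.19 * s)]
      have hfin : N * θ ≤ (θ - 1 / 2) * θ := by nlinarith
      exact le_of_mul_le_mul_right hfin hθ0
    · intro hs hR
      have hA2 : A ^ 2 ≤ θ ^ 2 + s ^ 2 - 1.732 * (s * θ) := by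
        nlinarith [mul_le_mul_of_nonneg_right h3 hsθ]
      have hA : A ≤ 0.9148 * θ := by
        apply le_of_sq' (by positivity)
        have h4 : 0 ≤ (s - θ / 10) * (θ - s) := mul_nonneg (by linarith) (by linarith)
        have h5 : 0 ≤ (s - θ / 10) * θ := mul_nonneg (by linarith) hθ0.le
        nlinarith
      have hfin : N * θ ≤ (23 / 25 * θ + 7) * θ := by nlinarith
      exact le_of_mul_le_mul_right hfin hθ0

end Pool.Agent.B5.H02
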