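import Pool.Agent.Lib.MP_b5021c_nt.IfaceS2a
import Pool.Agent.Lib.MP_b5021c_nt.B.H02.RbCore

/-!
# Board b5, row REB: the zero after a load of type B
-/

namespace Pool.Agent.B5.H02

theorem le_of_sq {a b : ℝ} (hb : 0 ≤ b) (h : a ^ 2 ≤ b ^ 2) : a ≤ b :=
  le_trans (le_abs_self a) (by
    have := sq_le_sq.mp h
    rwa [abs_of_nonneg hb] at this)

/-- (REB) the zero after a load of type B. -/
theorem reb : RebS := by
  intro T T' c v h hT _ hv hh hc1 hc2 heq
  have hsq := rb_sq (T := T) (c := c) hv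
  have hθ0 : (0 : ℝ) < ‖T‖ := by linarith
  by_cases hcase : ‖T'‖ ≤ ‖T‖ / 2
  · constructor
    · intro _ _
      have h8 : 0 ≤ 8 / ‖T‖ := by positivity
      linarith
    · intro _ _
      linarith
  · push Not at hcase
    have hcore : ‖T'‖ ≤ ‖T - v * c‖ + 3 * ‖c‖ / (47 / 100 * ‖T‖) :=
      rb_core hv hh (by positivity) (by linarith) heq
    have hfr : 3 * ‖c‖ / (47 / 100 * ‖T‖) ≤ 7 * ‖c‖ / ‖T‖ := by
      rw [div_le_div_iff₀ (by positivity) hθ0]
      nlinarith [mul_nonneg (norm_nonneg c) hθ0.le]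
    generalize ‖T‖ = θ at *
    generalize ‖c‖ = s at *
    generalize ‖T - v * c‖ = A at *
    generalize (v * (c * (starRingEnd ℂ) T)).re = R at *
    generalize ‖T'‖ = N at *
    constructor
    · intro hs hR
      have hA2 : A ^ 2 ≤ θ ^ 2 + s ^ 2 - s * θ := by linarith
      have hA : A * θ ≤ θ ^ 2 - s * θ / 2 + 3 * s ^ 2 / 7 := by
        apply le_of_sq
        · nlinarith
        · have h1 : (A * θ) ^ 2 ≤ (θ ^ 2 + s ^ 2 - s * θ) * θ ^ 2 := by
            rw [mul_pow]
            exact mul_le_mul_of_nonneg_right hA2 (sq_nonneg θ)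
          have h2 : 0 ≤ 3 / 7 * (s ^ 2 * θ * (θ / 4 - s)) := by
            have : 0 ≤ θ / 4 - s := by linarith
            positivity
          nlinarith [sq_nonneg (s ^ 2)]
      have hN : N * θ ≤ A * θ + 7 * s := by
        have h1 : N ≤ A + 7 * s / θ := hcore.trans (by linarith)
        calc N * θ ≤ (A + 7 * s / θ) * θ := mul_le_mul_of_nonneg_right h1 hθ0.le
          _ = _ := by field_simp
      have hfin : N * θ ≤ (θ - 1 / 2 + 8 / θ) * θ := by
        have h3 : (θ - 1 / 2 + 8 / θ) * θ = θ ^ 2 - θ / 2 + 8 := by field_simp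
        rw [h3]
        have h4 : 0 ≤ (s - 1) * (θ / 4 - s) := mul_nonneg (by linarith) (by linarith)
        have h5 : 0 ≤ (s - 1) * (θ - 100) := mul_nonneg (by linarith) (by linarith)
        nlinarith
      exact le_of_mul_le_mul_right hfin hθ0
    · intro hs hR
      have h3 : (1.732 : ℝ) ≤ Real.sqrt 3 := by
        apply Real.le_sqrt_of_sq_le
        norm_num
      have hsθ : 0 ≤ s * θ := by positivity
      have hA2 : A ^ 2 ≤ θ ^ 2 + s ^ 2 - 1.732 * (s * θ) := by
        nlinarith [mul_le_mul_of_nonneg_right h3 hsθ]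
      have hA : A ≤ 0.7935 * θ := by
        apply le_of_sq (by positivity)
        have h4 : 0 ≤ (s - θ / 4) * (θ - s) := mul_nonneg (by linarith) (by linarith)
        have h5 : 0 ≤ (s - θ / 4) * θ := mul_nonneg (by linarith) hθ0.le
        nlinarith
      have h7 : 7 * s / θ ≤ 7 := by
        rw [div_le_iff₀ hθ0]
        linarith
      nlinarith [hcore.trans (add_le_add_right hfr A)]

end Pool.Agent.B5.H02
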