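import Pool.Agent.Lib.MP_b5021c_nt.IfaceB

/-!
# MP_b5021c_nt, row UNI: units of the Laurent polynomial ring over a domain
-/

namespace Pool.Agent.B5.H02

open scoped LaurentPolynomial
open Polynomial

/-- Units of `O[T, T⁻¹]` for a domain `O`. -/
theorem unit_laurent {O : Type} [CommRing O] [IsDomain O] (c : LaurentPolynomial O) :
    IsUnit c ↔ ∃ (n : ℤ) (u : O), IsUnit u ∧ c = LaurentPolynomial.C u * LaurentPolynomial.T n := by
  constructor
  · intro hc
    obtain ⟨d, hd⟩ := hc.exists_right_inv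
    obtain ⟨m, f, hf⟩ := LaurentPolynomial.exists_T_pow c
    obtain ⟨k, g, hg⟩ := LaurentPolynomial.exists_T_pow d
    have h1 : toLaurent (f * g) = toLaurent ((X : O[X]) ^ (m + k)) := by
      rw [map_mul, hf, hg, toLaurent_X_pow]
      calc c * LaurentPolynomial.T (m : ℤ) * (d * LaurentPolynomial.T (k : ℤ))
          = (c * d) * (LaurentPolynomial.T (m : ℤ) * LaurentPolynomial.T (k : ℤ)) := by ring
        _ = LaurentPolynomial.T ((m + k : ℕ) : ℤ) := by
            rw [hd, one_mul, ← LaurentPolynomial.T_add]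
            push_cast
            rfl
    have h2 : f * g = (X : O[X]) ^ (m + k) := toLaurent_injective h1
    have h3 : f ∣ (X : O[X]) ^ (m + k) := ⟨g, h2.symm⟩
    obtain ⟨i, -, h4⟩ := (dvd_prime_pow (prime_X : Prime (X : O[X])) (m + k)).1 h3
    obtain ⟨u, hu⟩ := h4.symm
    obtain ⟨r, hr, hru⟩ := Polynomial.isUnit_iff.1 u.isUnit
    refine ⟨(i : ℤ) - m, r, hr, ?_⟩
    have h5 : c = toLaurent f * LaurentPolynomial.T (-(m : ℤ)) := by
      rw [hf, mul_assoc, ← LaurentPolynomial.T_add, add_neg_cancel, LaurentPolynomial.T_zero, mul_one]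
    rw [h5, ← hu, ← hru, map_mul, toLaurent_X_pow, toLaurent_C, sub_eq_add_neg,
      LaurentPolynomial.T_add]
    ring
  · rintro ⟨n, u, hu, rfl⟩
    exact (hu.map LaurentPolynomial.C).mul (LaurentPolynomial.isUnit_T n)

/-- UNI. -/
theorem uni : UnitRS := by
  intro O _ _ _ _ c
  exact unit_laurent c

end Pool.Agent.B5.H02
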