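import Pool.Agent.Lib.MP_b5021c_nt.IfaceS1
import Pool.Agent.Lib.MP_b5021c_nt.B.H50.G1c

/-!
# Board b5, row G1P: the rank of the support of the closed element, no pure extreme ray
-/

namespace Pool.Agent.B5.H02

open scoped LaurentPolynomial
open Pool.Agent.B5.H50.G1c

/-- (G1P) the rank of the support of the closed element, no pure extreme ray. -/
theorem g1p (h1 : RayFacS) (h2 : RaySpanS) (h3 : RkS) (h5 : SmallS) (h6 : G0S)
    (h7 : ThinS) : G1pS := by
  intro O _ _ _ _ P L _ _ _ _ _ phi D S i0 eta h c n G hF hno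
  obtain ⟨-, -, -, hww, hinj, hpos⟩ := h6 O P L phi D S i0 eta h hF.cc
  set V := cl (co phi i0) S h eta D with hV
  obtain ⟨-, hmono, -, -, -, hsub, hone, hzero, -⟩ := h3 (Ker (co phi i0)) (Ker (co phi i0))
  have hthin : Thin (supp V) := h7 P (Ker (co phi i0)) (phK phi (co phi i0)) (II phi S i0)
    (OO phi S) (supp V) hinj hww
  obtain ⟨-, -, lam0, hlS, hl⟩ := hF.cc.ray
  have hlam : ∃ lam : Ker (co phi i0) →+ ℤ, Pos lam V := ⟨_, hpos lam0 hlS hl⟩
  obtain ⟨-, hrk, -⟩ := h2 O (Ker (co phi i0)) V hlam hthin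
  rw [← hrk]
  classical
  -- the two kinds of rays
  have hcov : {b | Ray V b} ⊆ (⋃ i ∈ big G, supp (G i)) ∪
      (⋃ i ∈ snp phi S i0 G, supp (G i)) := by
    intro b hb
    obtain ⟨i, hi⟩ := h1 O P L phi D S i0 eta h c n G hF b hb
    by_cases hbig : 1 < M ((G i).coeff 0)
    · left
      rw [Set.mem_iUnion₂]
      exact ⟨i, Finset.mem_filter.mpr ⟨Finset.mem_univ _, hbig⟩, hi⟩
    · by_cases hp : Pure phi S i0 (G i)
      · exact absurd hb (hno i b hbig hp hi)
      · right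
        rw [Set.mem_iUnion₂]
        exact ⟨i, Finset.mem_filter.mpr ⟨Finset.mem_univ _, hbig, hp⟩, hi⟩
  have hA := rk_biUnion h3 (fun i => supp (G i)) (big G)
  have hB : rk (⋃ i ∈ snp phi S i0 G, supp (G i)) ≤ (snp phi S i0 G).card := by
    refine (rk_biUnion h3 (fun i => supp (G i)) (snp phi S i0 G)).trans ?_
    rw [Finset.card_eq_sum_ones]
    apply Finset.sum_le_sum
    intro i hi
    have hi' : ¬ 1 < M ((G i).coeff 0) ∧ ¬ Pure phi S i0 (G i) := (Finset.mem_filter.mp hi).2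
    obtain ⟨-, ⟨b, hb0, hb, -⟩, -⟩ := h5 O P L phi D S i0 eta h c n G hF i hi'.1
    change rk (supp (G i)) ≤ 1
    rw [hb, hzero {b}, hone b hb0]
  calc rk {b | Ray V b} ≤ _ := hmono _ _ hcov
    _ ≤ _ := hsub _ _
    _ ≤ ∑ i ∈ big G, rk (supp (G i)) + (snp phi S i0 G).card := Nat.add_le_add hA hB

end Pool.Agent.B5.H02
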